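import Pool.Agent.KS7_39.LS.Geo

set_option autoImplicit false

open Set Filter Topology Metric

namespace Pool.Agent.KS7_39.LS

lemma base_iff {x : ℂ} {a : ℝ} : Base x a ↔ (x ∈ W ∧ x ∈ M ∧ a = 0) ∨
    ∃ k, (x ∈ P k ∧ a = min 0 (c k * f k x)) ∨ (x ∈ Q k ∧ a = c k * f k x) := by
  constructor
  · rintro (⟨_, h1, h2⟩ | ⟨k, _, h⟩ | ⟨k, _, h⟩)
    · exact Or.inl ⟨h1, h2, rfl⟩
    · exact Or.inr ⟨k, Or.inl ⟨h, rfl⟩⟩
    · exact Or.inr ⟨k, Or.inr ⟨h, rfl⟩⟩
  · rintro (⟨h1, h2, rfl⟩ | ⟨k, ⟨h, rfl⟩ | ⟨h, rfl⟩⟩)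
    · exact Base.main x h1 h2
    · exact Base.hor k x h
    · exact Base.ver k x h

lemma f_pos_left {k : ℕ} {x : ℂ} (h1 : x.re ≤ e k) (h2 : 1022 * e k < x.im) : 0 < f k x := by
  unfold f; have := e_pos k; linarith

lemma f_neg_right {k : ℕ} {x : ℂ} (h1 : 123 * e k ≤ x.re) (h2 : x.im ≤ 1027 * e k) :
    f k x < 0 := by
  unfold f; have := e_pos k; linarith

lemma min_of_f_pos {k : ℕ} {x : ℂ} (h : 0 < f k x) : min 0 (c k * f k x) = 0 :=
  min_eq_left (mul_pos (c_pos k) h).le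

lemma min_of_f_neg {k : ℕ} {x : ℂ} (h : f k x < 0) : min 0 (c k * f k x) = c k * f k x :=
  min_eq_right (mul_neg_of_pos_of_neg (c_pos k) h).le

lemma P_im {k : ℕ} {x : ℂ} (h : x ∈ P k) : 1022 * e k < x.im ∧ x.im < 1026 * e k := h.2.2

lemma Q_im {k : ℕ} {x : ℂ} (h : x ∈ Q k) : 1022 * e k < x.im ∧ x.im < 1152 * e k := h.2.2

lemma PQ_im {k : ℕ} {x : ℂ} (h : x ∈ P k ∨ x ∈ Q k) :
    1022 * e k < x.im ∧ x.im < 1152 * e k := by
  have := e_pos k
  rcases h with h | h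
  · exact ⟨(P_im h).1, by linarith [(P_im h).2]⟩
  · exact Q_im h

lemma PQ_uniq {k j : ℕ} {x : ℂ} (h : x ∈ P j ∨ x ∈ Q j) (h1 : 1000 * e k ≤ x.im)
    (h2 : x.im ≤ 1200 * e k) : j = k := by
  have := PQ_im h
  have := e_pos j
  exact e_uniq (v := x.im) (by linarith) (by linarith) h1 h2

lemma P_W {k : ℕ} {x : ℂ} (h : x ∈ P k) : x ∈ W := by
  obtain ⟨h1, h2, h3, h4⟩ := h
  have := e_pos k
  have := e_le k
  exact ⟨by linarith, by linarith, by linarith, by linarith⟩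

lemma Q_W {k : ℕ} {x : ℂ} (h : x ∈ Q k) : x ∈ W := by
  obtain ⟨h1, h2, h3, h4⟩ := h
  have := e_pos k
  have := e_le k
  exact ⟨by linarith, by linarith, by linarith, by linarith⟩

lemma base_W {x : ℂ} {a : ℝ} (h : Base x a) : x ∈ W := by
  rcases h with ⟨_, h1, h2⟩ | ⟨k, _, h⟩ | ⟨k, _, h⟩
  · exact h1
  · exact P_W h
  · exact Q_W h

lemma SB_W {k : ℕ} {i : Fin 3} {x : ℂ} (h : x ∈ SB k i) : x ∈ W := by
  have h1 := SB_im h
  have h2 := SB_re h
  have := e_pos k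
  have := e_le k
  exact ⟨by linarith, by linarith, by linarith, by linarith⟩

lemma val_W {x : ℂ} {a : ℝ} (h : Val x a) : x ∈ W := by
  rcases h with h | ⟨k, i, hy, -⟩
  · exact base_W h
  · exact SB_W (phi_mem_SB hy)

lemma psi_M_0 {k : ℕ} {x : ℂ} : psi k 0 x ∈ M ↔ x.re < 0 ∨ 1022 * e k < x.im := by
  have he := e_pos k
  have h1 : (psi k 0 x).re = x.re / e k := by simp [psi, sg, bx]
  have h2 : (psi k 0 x).im = -((x.im - 1022 * e k) / e k) := by simp [psi, tg, bz]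
  show (psi k 0 x).re < 0 ∨ (psi k 0 x).im < 0 ↔ _
  rw [h1, h2, div_lt_iff₀ he, zero_mul, neg_lt_zero, lt_div_iff₀ he, zero_mul, sub_pos]

lemma psi_M_1 {k : ℕ} {x : ℂ} : psi k 1 x ∈ M ↔ x.re < 0 ∨ x.im < 1026 * e k := by
  have he := e_pos k
  have h1 : (psi k 1 x).re = x.re / e k := by simp [psi, sg, bx]
  have h2 : (psi k 1 x).im = ((x.im - 1026 * e k) / e k) := by simp [psi, tg, bz]
  show (psi k 1 x).re < 0 ∨ (psi k 1 x).im < 0 ↔ _
  rw [h1, h2, div_lt_iff₀ he, zero_mul, div_lt_iff₀ he, zero_mul, sub_neg]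

lemma psi_M_2 {k : ℕ} {x : ℂ} : psi k 2 x ∈ M ↔ 124 * e k < x.re ∨ x.im < 1026 * e k := by
  have he := e_pos k
  have h1 : (psi k 2 x).re = -((x.re - 124 * e k) / e k) := by simp [psi, sg, bx]
  have h2 : (psi k 2 x).im = ((x.im - 1026 * e k) / e k) := by simp [psi, tg, bz]
  show (psi k 2 x).re < 0 ∨ (psi k 2 x).im < 0 ↔ _
  rw [h1, h2, neg_lt_zero, lt_div_iff₀ he, zero_mul, sub_pos, div_lt_iff₀ he, zero_mul, sub_neg]

lemma SB0 {k : ℕ} {x : ℂ} (h : x ∈ SB k 0) :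
    -e k < x.re ∧ x.re < e k ∧ 1021 * e k < x.im ∧ x.im < 1023 * e k := by
  obtain ⟨h1, h2, h3, h4⟩ := h
  simp only [bx, bz, Fin.isValue, Matrix.cons_val_zero] at h1 h2 h3 h4
  exact ⟨by linarith, by linarith, by linarith, by linarith⟩

lemma SB1 {k : ℕ} {x : ℂ} (h : x ∈ SB k 1) :
    -e k < x.re ∧ x.re < e k ∧ 1025 * e k < x.im ∧ x.im < 1027 * e k := by
  obtain ⟨h1, h2, h3, h4⟩ := h
  simp only [bx, bz, Fin.isValue, Matrix.cons_val_one, Matrix.cons_val_zero] at h1 h2 h3 h4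
  exact ⟨by linarith, by linarith, by linarith, by linarith⟩

lemma SB2 {k : ℕ} {x : ℂ} (h : x ∈ SB k 2) :
    123 * e k < x.re ∧ x.re < 125 * e k ∧ 1025 * e k < x.im ∧ x.im < 1027 * e k := by
  obtain ⟨h1, h2, h3, h4⟩ := h
  simp only [bx, bz, Fin.isValue, Matrix.cons_val] at h1 h2 h3 h4
  exact ⟨by linarith, by linarith, by linarith, by linarith⟩

/-- Inside a box the undecorated graph is a copy of the corner. -/
lemma base_SB {k : ℕ} {i : Fin 3} {x : ℂ} {a : ℝ} (hx : x ∈ SB k i) :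
    Base x a ↔ psi k i x ∈ M ∧ a = lam k i x := by
  have he := e_pos k
  have hW := SB_W hx
  have him := SB_im hx
  rw [base_iff]
  have hk : ∀ j, (x ∈ P j ∨ x ∈ Q j) → j = k := fun j hj =>
    PQ_uniq hj (by linarith) (by linarith)
  fin_cases i
  · obtain ⟨h1, h2, h3, h4⟩ := SB0 hx
    rw [show (⟨0, by omega⟩ : Fin 3) = 0 from rfl, psi_M_0]
    simp only [lam, Fin.isValue, Fin.reduceEq, if_false]
    constructor
    · rintro (⟨-, hM, rfl⟩ | ⟨j, ⟨hj, ha⟩ | ⟨hj, ha⟩⟩)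
      · refine ⟨?_, rfl⟩
        rcases hM with hM | hM
        · exact Or.inl hM
        · exfalso; linarith
      · obtain rfl := hk j (Or.inl hj)
        refine ⟨Or.inr hj.2.2.1, ?_⟩
        rw [ha, min_of_f_pos (f_pos_left h2.le hj.2.2.1)]
      · obtain rfl := hk j (Or.inr hj)
        exfalso; linarith [hj.1]
    · rintro ⟨hM, rfl⟩
      by_cases hre : x.re < 0
      · exact Or.inl ⟨hW, Or.inl hre, rfl⟩
      · rcases hM with hM | hM
        · exact absurd hM hre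
        · refine Or.inr ⟨k, Or.inl ⟨⟨by linarith, by linarith, hM, by linarith⟩, ?_⟩⟩
          rw [min_of_f_pos (f_pos_left h2.le hM)]
  · obtain ⟨h1, h2, h3, h4⟩ := SB1 hx
    rw [show (⟨1, by omega⟩ : Fin 3) = 1 from rfl, psi_M_1]
    simp only [lam, Fin.isValue, Fin.reduceEq, if_false]
    constructor
    · rintro (⟨-, hM, rfl⟩ | ⟨j, ⟨hj, ha⟩ | ⟨hj, ha⟩⟩)
      · refine ⟨?_, rfl⟩
        rcases hM with hM | hM
        · exact Or.inl hM
        · exfalso; linarith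
      · obtain rfl := hk j (Or.inl hj)
        refine ⟨Or.inr hj.2.2.2, ?_⟩
        rw [ha, min_of_f_pos (f_pos_left h2.le hj.2.2.1)]
      · obtain rfl := hk j (Or.inr hj)
        exfalso; linarith [hj.1]
    · rintro ⟨hM, rfl⟩
      by_cases hre : x.re < 0
      · exact Or.inl ⟨hW, Or.inl hre, rfl⟩
      · rcases hM with hM | hM
        · exact absurd hM hre
        · refine Or.inr ⟨k, Or.inl ⟨⟨by linarith, by linarith, by linarith, hM⟩, ?_⟩⟩
          rw [min_of_f_pos (f_pos_left h2.le (by linarith))]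
  · obtain ⟨h1, h2, h3, h4⟩ := SB2 hx
    rw [show (⟨2, by omega⟩ : Fin 3) = 2 from rfl, psi_M_2]
    simp only [lam, if_true]
    have hf : f k x < 0 := f_neg_right h1.le h4.le
    constructor
    · rintro (⟨-, hM, rfl⟩ | ⟨j, ⟨hj, ha⟩ | ⟨hj, ha⟩⟩)
      · exfalso
        rcases hM with hM | hM <;> linarith
      · obtain rfl := hk j (Or.inl hj)
        refine ⟨Or.inr hj.2.2.2, ?_⟩
        rw [ha, min_of_f_neg hf]
      · obtain rfl := hk j (Or.inr hj)
        exact ⟨Or.inl hj.1, ha⟩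
    · rintro ⟨hM, rfl⟩
      by_cases him' : x.im < 1026 * e k
      · refine Or.inr ⟨k, Or.inl ⟨⟨by linarith, by linarith, by linarith, him'⟩, ?_⟩⟩
        rw [min_of_f_neg hf]
      · rcases hM with hM | hM
        · exact Or.inr ⟨k, Or.inr ⟨⟨hM, by linarith, by linarith, by linarith⟩, rfl⟩⟩
        · exact absurd hM him'

lemma base_uniq {x : ℂ} {a b : ℝ} (ha : Base x a) (hb : Base x b) : a = b := by
  have key : ∀ k, x ∈ P k → x ∈ Q k → f k x < 0 := by
    intro k h1 h2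
    have := e_pos k
    exact f_neg_right (by linarith [h2.1]) (by linarith [h1.2.2.2])
  have key2 : ∀ k, x ∈ M → x ∈ P k → 0 < f k x := by
    intro k h1 h2
    have := e_pos k
    refine f_pos_left ?_ h2.2.2.1
    rcases h1 with h1 | h1
    · linarith
    · linarith [h2.2.2.1]
  have key3 : ∀ k, x ∈ M → x ∈ Q k → False := by
    intro k h1 h2
    have := e_pos k
    rcases h1 with h1 | h1
    · linarith [h2.1]
    · linarith [h2.2.2.1]
  have key4 : ∀ j k, (x ∈ P j ∨ x ∈ Q j) → (x ∈ P k ∨ x ∈ Q k) → j = k := by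
    intro j k h1 h2
    have h3 := PQ_im h2
    have := e_pos k
    exact PQ_uniq h1 (by linarith) (by linarith)
  rw [base_iff] at ha hb
  rcases ha with ⟨-, hM, rfl⟩ | ⟨k, ⟨hk, rfl⟩ | ⟨hk, rfl⟩⟩
  · rcases hb with ⟨-, -, rfl⟩ | ⟨j, ⟨hj, rfl⟩ | ⟨hj, rfl⟩⟩
    · rfl
    · rw [min_of_f_pos (key2 j hM hj)]
    · exact absurd hj (key3 j hM)
  · rcases hb with ⟨-, hM, rfl⟩ | ⟨j, ⟨hj, rfl⟩ | ⟨hj, rfl⟩⟩
    · rw [min_of_f_pos (key2 k hM hk)]
    · rw [key4 k j (Or.inl hk) (Or.inl hj)]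
    · obtain rfl := key4 k j (Or.inl hk) (Or.inr hj)
      rw [min_of_f_neg (key k hk hj)]
  · rcases hb with ⟨-, hM, rfl⟩ | ⟨j, ⟨hj, rfl⟩ | ⟨hj, rfl⟩⟩
    · exact absurd hk (key3 k hM)
    · obtain rfl := key4 k j (Or.inr hk) (Or.inl hj)
      rw [min_of_f_neg (key k hj hk)]
    · rw [key4 k j (Or.inr hk) (Or.inr hj)]

lemma f_ub {k : ℕ} {x : ℂ} (h : x ∈ Q k) : f k x < 237 / 2 * e k := by
  unfold f; linarith [h.1, h.2.2.2]

lemma f_lb {k : ℕ} {x : ℂ} (h : x ∈ P k ∨ x ∈ Q k) : -12 * e k < f k x := by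
  have := e_pos k
  unfold f
  rcases h with h | h <;> linarith [h.2.1, h.2.2.1]

lemma cf_ub {k : ℕ} {x : ℂ} (h : x ∈ Q k) : c k * f k x ≤ 1 + (1 / 2 : ℝ) ^ k / 4 := by
  have h1 := mul_le_mul_of_nonneg_left (f_ub h).le (c_pos k).le
  rw [c_mul] at h1
  linarith

lemma cf_lb {k : ℕ} {x : ℂ} (h : x ∈ P k ∨ x ∈ Q k) : -(1 / 6) ≤ c k * f k x := by
  have h1 := mul_le_mul_of_nonneg_left (f_lb h).le (c_pos k).le
  rw [c_mul] at h1
  have := half_pow_le k
  nlinarith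

lemma base_bounds {x : ℂ} {a : ℝ} (h : Base x a) : -(1 / 6) ≤ a ∧ a ≤ 5 / 4 := by
  rcases h with ⟨_, h1, h2⟩ | ⟨k, _, h⟩ | ⟨k, _, h⟩
  · norm_num
  · have := cf_lb (Or.inl h)
    refine ⟨le_min (by norm_num) this, (min_le_left _ _).trans (by norm_num)⟩
  · have := cf_lb (Or.inr h)
    have := cf_ub h
    have := half_pow_le k
    refine ⟨by linarith, by linarith⟩

lemma lam_le {k : ℕ} {i : Fin 3} {x : ℂ} (h : x ∈ SB k i) : lam k i x ≤ 0 := by
  unfold lam
  split_ifs with hi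
  · subst hi
    obtain ⟨h1, h2, h3, h4⟩ := SB2 h
    exact (mul_neg_of_pos_of_neg (c_pos k) (f_neg_right h1.le h4.le)).le
  · exact le_rfl

lemma lam_ge {k : ℕ} {i : Fin 3} {x : ℂ} (h : x ∈ SB k i) : -(1 / 6) ≤ lam k i x := by
  unfold lam
  split_ifs with hi
  · subst hi
    obtain ⟨h1, h2, h3, h4⟩ := SB2 h
    have he := e_pos k
    have hf : -12 * e k ≤ f k x := by unfold f; linarith
    have h5 := mul_le_mul_of_nonneg_left hf (c_pos k).le
    rw [c_mul] at h5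
    have := half_pow_le k
    nlinarith
  · norm_num

lemma val_bounds {x : ℂ} {a : ℝ} (h : Val x a) : -(1 / 3) ≤ a ∧ a ≤ 5 / 4 := by
  induction h with
  | base h => have := base_bounds h; exact ⟨by linarith, by linarith⟩
  | sub k i hy hb ih =>
    have h1 := lam_le (phi_mem_SB (k := k) (i := i) hy)
    have h2 := lam_ge (phi_mem_SB (k := k) (i := i) hy)
    constructor <;> linarith [ih.1, ih.2]

lemma val_SB_le {k : ℕ} {i : Fin 3} {y : ℂ} {b : ℝ} (hy : y ∈ W) (hb : Val y b) :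
    lam k i (phi k i y) + b / 2 ≤ 5 / 8 := by
  have h1 := lam_le (phi_mem_SB (k := k) (i := i) hy)
  have := (val_bounds hb).2
  linarith

/-- outside the core the decorated graph is the corner -/
lemma val_collar {y : ℂ} {a : ℝ} (hy : y ∈ W)
    (h : ¬ (-(1 / 2) ≤ y.re ∧ y.re ≤ 1 / 2 ∧ -(1 / 2) ≤ y.im ∧ y.im ≤ 1 / 2)) :
    Val y a ↔ y ∈ M ∧ a = 0 := by
  constructor
  · intro hv
    rcases hv with hv | ⟨k, i, hz, hb⟩
    · rw [base_iff] at hv
      rcases hv with ⟨-, hM, rfl⟩ | ⟨k, hk⟩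
      · exact ⟨hM, rfl⟩
      · exfalso
        apply h
        have := e_pos k
        have := e_le k
        rcases hk with ⟨⟨h1, h2, h3, h4⟩, -⟩ | ⟨⟨h1, h2, h3, h4⟩, -⟩ <;>
        exact ⟨by linarith, by linarith, by linarith, by linarith⟩
    · exfalso
      apply h
      have := e_pos k
      have := e_le k
      have h1 := SB_im (phi_mem_SB (k := k) (i := i) hz)
      have h2 := SB_re (phi_mem_SB (k := k) (i := i) hz)
      exact ⟨by linarith, by linarith, by linarith, by linarith⟩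
  · rintro ⟨hM, rfl⟩
    exact Val.base (Base.main y hy hM)

/-- on the main part the value is `0` -/
lemma val_main {y : ℂ} {b : ℝ} (h : Val y b) : y ∈ M → b = 0 := by
  induction h with
  | base h =>
    intro hM
    exact base_uniq h (Base.main _ (base_W h) hM)
  | @sub k i y b hy hb ih =>
    intro hM
    have hS := phi_mem_SB (k := k) (i := i) hy
    have he := e_pos k
    have him := SB_im hS
    have hre : (phi k i y).re < 0 := by
      rcases hM with h | h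
      · exact h
      · exfalso; linarith
    have hi : i ≠ 2 := by
      rintro rfl
      have := (SB2 hS).1
      linarith
    have hyM : y ∈ M := by
      left
      have h1 : (phi k i y).re = e k * y.re := by
        fin_cases i
        · simp [phi, bx, sg]
        · simp [phi, bx, sg]
        · exact absurd rfl hi
      rw [h1] at hre
      exact (pos_iff_neg_of_mul_neg hre).1 he
    rw [ih hyM]
    simp [lam, hi]

/-- inside a box the decorated graph is a copy of the decorated corner -/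
lemma val_SB {k : ℕ} {i : Fin 3} {x : ℂ} {a : ℝ} (hx : x ∈ SB k i) :
    Val x a ↔ ∃ b, Val (psi k i x) b ∧ a = lam k i x + b / 2 := by
  have hW : psi k i x ∈ W := (mem_SB_iff k i x).1 hx
  constructor
  · intro hv
    rcases hv with hv | ⟨j, l, hz, hb⟩
    · obtain ⟨h1, h2⟩ := (base_SB hx).1 hv
      exact ⟨0, Val.base (Base.main _ hW h1), by rw [h2]; ring⟩
    · obtain ⟨rfl, rfl⟩ := SB_uniq (phi_mem_SB hz) hx
      rw [psi_phi]
      exact ⟨_, hb, rfl⟩
  · rintro ⟨b, hb, rfl⟩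
    have := Val.sub k i hW hb
    rwa [phi_psi] at this

lemma val_uniq {x : ℂ} {a : ℝ} (ha : Val x a) : ∀ {b : ℝ}, Val x b → a = b := by
  induction ha with
  | @base x a h =>
    intro b hb
    by_cases hS : ∃ k i, x ∈ SB k i
    · obtain ⟨k, i, hS⟩ := hS
      obtain ⟨h1, h2⟩ := (base_SB hS).1 h
      obtain ⟨b', hb', rfl⟩ := (val_SB hS).1 hb
      rw [val_main hb' h1, h2]; ring
    · rcases hb with hb | ⟨j, l, hz, hb⟩
      · exact base_uniq h hb
      · exact absurd ⟨j, l, phi_mem_SB hz⟩ hS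
  | @sub k i y b' hy hb' ih =>
    intro b hb
    obtain ⟨b'', hb'', rfl⟩ := (val_SB (phi_mem_SB hy)).1 hb
    rw [psi_phi] at hb''
    rw [ih hb'']

/-- outside of the cores the decorated graph is the undecorated one -/
lemma val_iff_base {x : ℂ} {a : ℝ} (h : ∀ k i, x ∉ CB k i) : Val x a ↔ Base x a := by
  refine ⟨fun hv => ?_, Val.base⟩
  rcases hv with hv | ⟨k, i, hz, hb⟩
  · exact hv
  · rename_i y b
    have hS := phi_mem_SB (k := k) (i := i) hz
    have he := e_pos k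
    have hc : ¬ (-(1 / 2) ≤ y.re ∧ y.re ≤ 1 / 2 ∧ -(1 / 2) ≤ y.im ∧ y.im ≤ 1 / 2) := by
      rintro ⟨h1, h2, h3, h4⟩
      apply h k i
      have hs := abs_le.2 ⟨h1, h2⟩
      have ht := abs_le.2 ⟨h3, h4⟩
      have e1 : |e k * (sg i * y.re)| ≤ e k / 2 := by
        rw [abs_mul, abs_mul, sg_abs, abs_of_pos he]
        nlinarith
      have e2 : |e k * (tg i * y.im)| ≤ e k / 2 := by
        rw [abs_mul, abs_mul, tg_abs, abs_of_pos he]
        nlinarith
      rw [abs_le] at e1 e2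
      refine ⟨?_, ?_, ?_, ?_⟩ <;> simp only [phi] <;> linarith [e1.1, e1.2, e2.1, e2.2]
    obtain ⟨hM, rfl⟩ := (val_collar hz hc).1 hb
    rw [base_SB hS, psi_phi]
    exact ⟨hM, by ring⟩

end Pool.Agent.KS7_39.LS
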