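import Mathlib

set_option autoImplicit false

open Set Filter Topology Metric

namespace Pool.Agent.KS7_39.LS

/-- the scale of the `k`-th tentacle -/
noncomputable def e (k : ℕ) : ℝ := (1 / 4 : ℝ) ^ (k + 1) / 1024

lemma e_pos (k : ℕ) : 0 < e k := by unfold e; positivity

lemma e_succ (k : ℕ) : e (k + 1) = e k / 4 := by
  unfold e; rw [pow_succ]; ring

lemma e_le (k : ℕ) : e k ≤ 1 / 4096 := by
  induction k with
  | zero => unfold e; norm_num
  | succ k ih => rw [e_succ]; have := e_pos k; linarith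

lemma e_lt {j k : ℕ} (h : j < k) : e k ≤ e j / 4 := by
  induction k with
  | zero => omega
  | succ k ih =>
    rw [e_succ]
    rcases Nat.lt_succ_iff_lt_or_eq.mp h with h1 | h1
    · have := ih h1; have := e_pos j; have := e_pos k; linarith
    · rw [h1]

lemma e_uniq {j k : ℕ} {v : ℝ} (h1 : 1000 * e j ≤ v) (h2 : v ≤ 1200 * e j)
    (h3 : 1000 * e k ≤ v) (h4 : v ≤ 1200 * e k) : j = k := by
  rcases lt_trichotomy j k with h | h | h
  · have := e_lt h; have := e_pos j; linarith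
  · exact h
  · have := e_lt h; have := e_pos k; linarith

/-- the open unit box -/
def W : Set ℂ := {x | -1 < x.re ∧ x.re < 1 ∧ -1 < x.im ∧ x.im < 1}

/-- the complement of the closed first quadrant -/
def M : Set ℂ := {x | x.re < 0 ∨ x.im < 0}

/-- horizontal part of the `k`-th tentacle -/
def P (k : ℕ) : Set ℂ :=
  {x | -(2 * e k) < x.re ∧ x.re < 128 * e k ∧ 1022 * e k < x.im ∧ x.im < 1026 * e k}

/-- vertical part of the `k`-th tentacle -/
def Q (k : ℕ) : Set ℂ :=
  {x | 124 * e k < x.re ∧ x.re < 128 * e k ∧ 1022 * e k < x.im ∧ x.im < 1152 * e k}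

/-- the affine function of the `k`-th tentacle -/
noncomputable def f (k : ℕ) (x : ℂ) : ℝ := x.im - x.re / 8 - 1018 * e k

/-- the slope of the `k`-th tentacle -/
noncomputable def c (k : ℕ) : ℝ := (1 + (1 / 2 : ℝ) ^ k / 4) * 2 / (237 * e k)

lemma c_pos (k : ℕ) : 0 < c k := by
  unfold c; have := e_pos k; positivity

lemma c_mul (k : ℕ) (s : ℝ) : c k * (s * e k) = (1 + (1 / 2 : ℝ) ^ k / 4) * (2 * s / 237) := by
  unfold c; have := e_pos k; field_simp

lemma half_pow_le (k : ℕ) : (1 / 2 : ℝ) ^ k ≤ 1 := pow_le_one₀ (by norm_num) (by norm_num)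

/-- the undecorated graph: main part and tentacles, with the values of the function -/
inductive Base : ℂ → ℝ → Prop
  | main (x : ℂ) : x ∈ W → x ∈ M → Base x 0
  | hor (k : ℕ) (x : ℂ) : x ∈ P k → Base x (min 0 (c k * f k x))
  | ver (k : ℕ) (x : ℂ) : x ∈ Q k → Base x (c k * f k x)

/-- data of the three bad corners -/
noncomputable def bx : Fin 3 → ℝ := ![0, 0, 124]
/-- data of the three bad corners -/
noncomputable def bz : Fin 3 → ℝ := ![1022, 1026, 1026]
/-- data of the three bad corners -/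
noncomputable def sg : Fin 3 → ℝ := ![1, 1, -1]
/-- data of the three bad corners -/
noncomputable def tg : Fin 3 → ℝ := ![-1, 1, 1]

/-- the similarity onto the box around the corner `i` of the tentacle `k` -/
noncomputable def phi (k : ℕ) (i : Fin 3) (y : ℂ) : ℂ :=
  ⟨bx i * e k + e k * (sg i * y.re), bz i * e k + e k * (tg i * y.im)⟩

/-- the inverse of `phi` -/
noncomputable def psi (k : ℕ) (i : Fin 3) (x : ℂ) : ℂ :=
  ⟨sg i * ((x.re - bx i * e k) / e k), tg i * ((x.im - bz i * e k) / e k)⟩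

lemma sg_sq (i : Fin 3) : sg i * sg i = 1 := by fin_cases i <;> simp [sg]
lemma tg_sq (i : Fin 3) : tg i * tg i = 1 := by fin_cases i <;> simp [tg]
lemma sg_abs (i : Fin 3) : |sg i| = 1 := by fin_cases i <;> simp [sg]
lemma tg_abs (i : Fin 3) : |tg i| = 1 := by fin_cases i <;> simp [tg]

lemma psi_phi (k : ℕ) (i : Fin 3) (y : ℂ) : psi k i (phi k i y) = y := by
  have h := (e_pos k).ne'
  apply Complex.ext
  · simp only [psi, phi]
    have : sg i * ((bx i * e k + e k * (sg i * y.re) - bx i * e k) / e k) =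
        (sg i * sg i) * y.re := by field_simp; ring
    rw [this, sg_sq, one_mul]
  · simp only [psi, phi]
    have : tg i * ((bz i * e k + e k * (tg i * y.im) - bz i * e k) / e k) =
        (tg i * tg i) * y.im := by field_simp; ring
    rw [this, tg_sq, one_mul]

lemma phi_psi (k : ℕ) (i : Fin 3) (x : ℂ) : phi k i (psi k i x) = x := by
  have h := (e_pos k).ne'
  apply Complex.ext
  · simp only [psi, phi]
    rw [← mul_assoc (sg i), sg_sq, one_mul, mul_div_cancel₀ _ h]; ring
  · simp only [psi, phi]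
    rw [← mul_assoc (tg i), tg_sq, one_mul, mul_div_cancel₀ _ h]; ring

/-- the affine function added near the corner `i` of the tentacle `k` -/
noncomputable def lam (k : ℕ) (i : Fin 3) (x : ℂ) : ℝ := if i = 2 then c k * f k x else 0

/-- the decorated graph -/
inductive Val : ℂ → ℝ → Prop
  | base {x : ℂ} {a : ℝ} : Base x a → Val x a
  | sub (k : ℕ) (i : Fin 3) {y : ℂ} {b : ℝ} : y ∈ W → Val y b →
      Val (phi k i y) (lam k i (phi k i y) + b / 2)

/-- the box around the corner `i` of the tentacle `k` -/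
def SB (k : ℕ) (i : Fin 3) : Set ℂ :=
  {x | -e k < x.re - bx i * e k ∧ x.re - bx i * e k < e k ∧
    -e k < x.im - bz i * e k ∧ x.im - bz i * e k < e k}

/-- the closed core of the box -/
def CB (k : ℕ) (i : Fin 3) : Set ℂ :=
  {x | -(e k / 2) ≤ x.re - bx i * e k ∧ x.re - bx i * e k ≤ e k / 2 ∧
    -(e k / 2) ≤ x.im - bz i * e k ∧ x.im - bz i * e k ≤ e k / 2}

lemma CB_sub (k : ℕ) (i : Fin 3) : CB k i ⊆ SB k i := by
  intro x hx
  have := e_pos k
  obtain ⟨h1, h2, h3, h4⟩ := hx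
  exact ⟨by linarith, by linarith, by linarith, by linarith⟩

lemma sgn_box {s t : ℝ} (hs : s * s = 1) (h : -1 < s * t ∧ s * t < 1) : -1 < t ∧ t < 1 := by
  have h1 : s = 1 ∨ s = -1 := by
    have : (s - 1) * (s + 1) = 0 := by linarith
    rcases mul_eq_zero.mp this with h | h
    · left; linarith
    · right; linarith
  rcases h1 with rfl | rfl
  · simpa using h
  · constructor <;> linarith [h.1, h.2]

lemma mem_SB_iff (k : ℕ) (i : Fin 3) (x : ℂ) : x ∈ SB k i ↔ psi k i x ∈ W := by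
  have he := e_pos k
  have key : ∀ a : ℝ, (-e k < a ∧ a < e k) ↔ (-1 < a / e k ∧ a / e k < 1) := by
    intro a
    rw [lt_div_iff₀ he, div_lt_iff₀ he]
    constructor <;> rintro ⟨h1, h2⟩ <;> constructor <;> linarith
  constructor
  · rintro ⟨h1, h2, h3, h4⟩
    have k1 := (key _).1 ⟨h1, h2⟩
    have k2 := (key _).1 ⟨h3, h4⟩
    refine ⟨?_, ?_, ?_, ?_⟩ <;> simp only [psi] <;> fin_cases i <;>
      simp only [sg, tg, Fin.isValue, Matrix.cons_val_zero, Matrix.cons_val_one, Matrix.cons_val,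
        Fin.zero_eta, Fin.mk_one, Fin.reduceFinMk] <;>
      simp only [Fin.zero_eta, Fin.mk_one, Fin.reduceFinMk] at k1 k2 <;>
      linarith [k1.1, k1.2, k2.1, k2.2]
  · rintro ⟨h1, h2, h3, h4⟩
    have k1 := (key _).2 (sgn_box (sg_sq i) ⟨h1, h2⟩)
    have k2 := (key _).2 (sgn_box (tg_sq i) ⟨h3, h4⟩)
    exact ⟨k1.1, k1.2, k2.1, k2.2⟩

lemma phi_mem_SB {k : ℕ} {i : Fin 3} {y : ℂ} (hy : y ∈ W) : phi k i y ∈ SB k i := by
  rw [mem_SB_iff, psi_phi]; exact hy

lemma bz_bounds (i : Fin 3) : 1022 ≤ bz i ∧ bz i ≤ 1026 := by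
  fin_cases i <;> simp [bz] <;> norm_num

lemma bx_bounds (i : Fin 3) : 0 ≤ bx i ∧ bx i ≤ 124 := by
  fin_cases i <;> simp [bx]

lemma SB_im {k : ℕ} {i : Fin 3} {x : ℂ} (h : x ∈ SB k i) :
    1021 * e k < x.im ∧ x.im < 1027 * e k := by
  obtain ⟨-, -, h3, h4⟩ := h
  have := e_pos k
  have h5 := bz_bounds i
  constructor <;> nlinarith

lemma SB_re {k : ℕ} {i : Fin 3} {x : ℂ} (h : x ∈ SB k i) :
    -e k < x.re ∧ x.re < 125 * e k := by
  obtain ⟨h1, h2, -, -⟩ := h
  have := e_pos k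
  have h5 := bx_bounds i
  constructor <;> nlinarith

lemma SB_uniq {k j : ℕ} {i l : Fin 3} {x : ℂ} (h : x ∈ SB k i) (h' : x ∈ SB j l) :
    k = j ∧ i = l := by
  have h1 := SB_im h
  have h2 := SB_im h'
  have e1 := e_pos k
  have e2 := e_pos j
  obtain rfl : k = j := e_uniq (v := x.im) (by linarith) (by linarith) (by linarith) (by linarith)
  refine ⟨rfl, ?_⟩
  obtain ⟨a1, a2, a3, a4⟩ := h
  obtain ⟨b1, b2, b3, b4⟩ := h'
  fin_cases i <;> fin_cases l <;> simp [bx, bz] at * <;> linarith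

end Pool.Agent.KS7_39.LS
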