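import Pool.Agent.KS7_39.LS.Base

set_option autoImplicit false

open Set Filter Topology Metric

namespace Pool.Agent.KS7_39.LS

/-- near `x` the relation `S` is the graph of a concave function on an open convex set -/
def LocConv (S : ℂ → ℝ → Prop) (x : ℂ) : Prop :=
  ∃ (K : Set ℂ) (F : ℂ → ℝ), IsOpen K ∧ Convex ℝ K ∧ ConcaveOn ℝ K F ∧
    ∀ᶠ y in 𝓝 x, ∀ a, S y a ↔ (y ∈ K ∧ a = F y)

lemma f_comb (k : ℕ) (x y : ℂ) (a b : ℝ) (h : a + b = 1) :
    f k (a • x + b • y) = a * f k x + b * f k y := by
  have e1 : (a • x + b • y).re = a * x.re + b * y.re := by simp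
  have e2 : (a • x + b • y).im = a * x.im + b * y.im := by simp
  unfold f
  rw [e1, e2]
  linear_combination (1018 * e k) * h

lemma psi_comb (k : ℕ) (i : Fin 3) (x y : ℂ) (a b : ℝ) (h : a + b = 1) :
    psi k i (a • x + b • y) = a • psi k i x + b • psi k i y := by
  have he := (e_pos k).ne'
  have e1 : (a • x + b • y).re = a * x.re + b * y.re := by simp
  have e2 : (a • x + b • y).im = a * x.im + b * y.im := by simp
  apply Complex.ext
  · have e3 : (a • psi k i x + b • psi k i y).re = a * (psi k i x).re + b * (psi k i y).re := by simp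
    rw [e3]
    simp only [psi]
    rw [e1]
    field_simp
    linear_combination (bx i * sg i * e k) * h
  · have e3 : (a • psi k i x + b • psi k i y).im = a * (psi k i x).im + b * (psi k i y).im := by simp
    rw [e3]
    simp only [psi]
    rw [e2]
    field_simp
    linear_combination (bz i * tg i * e k) * h

lemma continuous_f (k : ℕ) : Continuous (f k) := by
  unfold f; fun_prop

lemma continuous_psi (k : ℕ) (i : Fin 3) : Continuous (psi k i) := by
  have : psi k i = fun x : ℂ => ((sg i * ((x.re - bx i * e k) / e k) : ℝ) : ℂ) +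
      ((tg i * ((x.im - bz i * e k) / e k) : ℝ) : ℂ) * Complex.I := by
    funext x
    apply Complex.ext <;> simp [psi]
  rw [this]
  fun_prop

lemma concave_cf (k : ℕ) {K : Set ℂ} (hK : Convex ℝ K) :
    ConcaveOn ℝ K (fun x => c k * f k x) := by
  refine ⟨hK, fun x _ y _ a b _ _ hab => ?_⟩
  simp only [smul_eq_mul]
  rw [f_comb k x y a b hab]
  apply le_of_eq
  ring

lemma concave_min (k : ℕ) {K : Set ℂ} (hK : Convex ℝ K) :
    ConcaveOn ℝ K (fun x => min 0 (c k * f k x)) :=
  (concaveOn_const 0 hK).inf (concave_cf k hK)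

lemma isOpen_W : IsOpen W :=
  (isOpen_lt continuous_const Complex.continuous_re).inter
    ((isOpen_lt Complex.continuous_re continuous_const).inter
      ((isOpen_lt continuous_const Complex.continuous_im).inter
        (isOpen_lt Complex.continuous_im continuous_const)))

lemma convex_W : Convex ℝ W :=
  (convex_halfSpace_re_gt _).inter ((convex_halfSpace_re_lt _).inter
    ((convex_halfSpace_im_gt _).inter (convex_halfSpace_im_lt _)))

lemma isOpen_P (k : ℕ) : IsOpen (P k) :=
  (isOpen_lt continuous_const Complex.continuous_re).inter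
    ((isOpen_lt Complex.continuous_re continuous_const).inter
      ((isOpen_lt continuous_const Complex.continuous_im).inter
        (isOpen_lt Complex.continuous_im continuous_const)))

lemma convex_P (k : ℕ) : Convex ℝ (P k) :=
  (convex_halfSpace_re_gt _).inter ((convex_halfSpace_re_lt _).inter
    ((convex_halfSpace_im_gt _).inter (convex_halfSpace_im_lt _)))

lemma isOpen_Q (k : ℕ) : IsOpen (Q k) :=
  (isOpen_lt continuous_const Complex.continuous_re).inter
    ((isOpen_lt Complex.continuous_re continuous_const).inter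
      ((isOpen_lt continuous_const Complex.continuous_im).inter
        (isOpen_lt Complex.continuous_im continuous_const)))

lemma convex_Q (k : ℕ) : Convex ℝ (Q k) :=
  (convex_halfSpace_re_gt _).inter ((convex_halfSpace_re_lt _).inter
    ((convex_halfSpace_im_gt _).inter (convex_halfSpace_im_lt _)))

/-- left part of the box -/
def K1 : Set ℂ := W ∩ {x | x.re < 0}
/-- lower part of the box -/
def K2 : Set ℂ := W ∩ {x | x.im < 0}

lemma isOpen_K1 : IsOpen K1 := isOpen_W.inter (isOpen_lt Complex.continuous_re continuous_const)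
lemma isOpen_K2 : IsOpen K2 := isOpen_W.inter (isOpen_lt Complex.continuous_im continuous_const)
lemma convex_K1 : Convex ℝ K1 := convex_W.inter (convex_halfSpace_re_lt _)
lemma convex_K2 : Convex ℝ K2 := convex_W.inter (convex_halfSpace_im_lt _)

/-- closed box containing the tentacle -/
def PC (k : ℕ) : Set ℂ :=
  {x | -(2 * e k) ≤ x.re ∧ x.re ≤ 128 * e k ∧ 1022 * e k ≤ x.im ∧ x.im ≤ 1152 * e k}

lemma isClosed_PC (k : ℕ) : IsClosed (PC k) :=
  (isClosed_le continuous_const Complex.continuous_re).inter
    ((isClosed_le Complex.continuous_re continuous_const).inter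
      ((isClosed_le continuous_const Complex.continuous_im).inter
        (isClosed_le Complex.continuous_im continuous_const)))

lemma isClosed_CB (k : ℕ) (i : Fin 3) : IsClosed (CB k i) :=
  (isClosed_le continuous_const (Complex.continuous_re.sub continuous_const)).inter
    ((isClosed_le (Complex.continuous_re.sub continuous_const) continuous_const).inter
      ((isClosed_le continuous_const (Complex.continuous_im.sub continuous_const)).inter
        (isClosed_le (Complex.continuous_im.sub continuous_const) continuous_const)))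

lemma isOpen_SB (k : ℕ) (i : Fin 3) : IsOpen (SB k i) :=
  (isOpen_lt continuous_const (Complex.continuous_re.sub continuous_const)).inter
    ((isOpen_lt (Complex.continuous_re.sub continuous_const) continuous_const).inter
      ((isOpen_lt continuous_const (Complex.continuous_im.sub continuous_const)).inter
        (isOpen_lt (Complex.continuous_im.sub continuous_const) continuous_const)))

lemma PQ_PC {k : ℕ} {x : ℂ} (h : x ∈ P k ∨ x ∈ Q k) : x ∈ PC k := by
  have := e_pos k
  rcases h with ⟨h1, h2, h3, h4⟩ | ⟨h1, h2, h3, h4⟩ <;>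
  exact ⟨by linarith, by linarith, by linarith, by linarith⟩

/-- a large box containing everything of index `k` -/
def Zn (k : ℕ) : Set ℂ := {x | |x.re| ≤ 1200 * e k ∧ |x.im| ≤ 1200 * e k}

lemma PC_Zn (k : ℕ) : PC k ⊆ Zn k := by
  rintro x ⟨h1, h2, h3, h4⟩
  have := e_pos k
  exact ⟨abs_le.2 ⟨by linarith, by linarith⟩, abs_le.2 ⟨by linarith, by linarith⟩⟩

lemma SB_Zn (k : ℕ) (i : Fin 3) : SB k i ⊆ Zn k := by
  intro x hx
  have := e_pos k
  have h1 := SB_im hx
  have h2 := SB_re hx
  exact ⟨abs_le.2 ⟨by linarith, by linarith⟩, abs_le.2 ⟨by linarith, by linarith⟩⟩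

lemma tendsto_e : Tendsto e atTop (𝓝 0) := by
  have h1 : Tendsto (fun k : ℕ => (1 / 4 : ℝ) ^ (k + 1)) atTop (𝓝 0) :=
    (tendsto_pow_atTop_nhds_zero_of_lt_one (by norm_num) (by norm_num)).comp (tendsto_add_atTop_nat 1)
  have h2 := h1.div_const 1024
  rw [zero_div] at h2
  exact h2

lemma locfin {x : ℂ} (hx : x ≠ 0) (C : ℕ → Set ℂ) (hC : ∀ k, IsClosed (C k))
    (hz : ∀ k, C k ⊆ Zn k) (p : ℕ → Prop) (h : ∀ k, p k → x ∉ C k) :
    ∀ᶠ y in 𝓝 x, ∀ k, p k → y ∉ C k := by
  have hn : 0 < ‖x‖ := norm_pos_iff.2 hx
  obtain ⟨N, hN⟩ := ((tendsto_e.eventually_lt_const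
    (show (0 : ℝ) < ‖x‖ / 4800 by positivity))).exists_forall_of_atTop
  have h1 : ∀ᶠ y in 𝓝 x, ‖x‖ / 2 < ‖y‖ :=
    (continuous_norm.tendsto x).eventually_const_lt (by linarith)
  have h2 : ∀ᶠ y in 𝓝 x, ∀ k ∈ Finset.range N, p k → y ∉ C k := by
    rw [Filter.eventually_all_finset]
    intro k _
    by_cases hp : p k
    · filter_upwards [(hC k).isOpen_compl.mem_nhds (h k hp)] with y hy _
      exact hy
    · exact Filter.Eventually.of_forall fun y hpk => absurd hpk hp
  filter_upwards [h1, h2] with y hy1 hy2 k hk hyC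
  by_cases hkN : k < N
  · exact hy2 k (Finset.mem_range.2 hkN) hk hyC
  · push Not at hkN
    have h3 := hN k hkN
    obtain ⟨h4, h5⟩ := hz k hyC
    have h6 := Complex.norm_le_abs_re_add_abs_im y
    linarith

/-- the tentacles do not matter near a point that is in none of the boxes `PC j`, `j ∈ p` -/
lemma base_near {x : ℂ} (hx : x ≠ 0) (p : ℕ → Prop) (h : ∀ j, p j → x ∉ PC j) :
    ∀ᶠ y in 𝓝 x, ∀ j, p j → y ∉ P j ∧ y ∉ Q j := by
  filter_upwards [locfin hx PC isClosed_PC PC_Zn p h] with y hy j hj
  exact ⟨fun h => hy j hj (PQ_PC (Or.inl h)), fun h => hy j hj (PQ_PC (Or.inr h))⟩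

lemma base_locConv {x : ℂ} (hx : x ≠ 0) (hc : ∀ k i, x ∉ CB k i) : LocConv Base x := by
  by_cases hex : ∃ k, x ∈ PC k
  · obtain ⟨k, hk⟩ := hex
    have he := e_pos k
    obtain ⟨h1, h2, h3, h4⟩ := hk
    have hnear : ∀ᶠ y in 𝓝 x, ∀ j, j ≠ k → y ∉ P j ∧ y ∉ Q j := by
      apply base_near hx
      intro j hj hxj
      apply hj
      have := e_pos j
      exact e_uniq (v := x.im) (by linarith [hxj.2.2.1]) (by linarith [hxj.2.2.2])
        (by linarith) (by linarith)
    have him : ∀ᶠ y : ℂ in 𝓝 x, 1021 * e k < y.im :=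
      (Complex.continuous_im.tendsto x).eventually_const_lt (by linarith)
    have him2 : ∀ᶠ y : ℂ in 𝓝 x, y.im < 1153 * e k :=
      (Complex.continuous_im.tendsto x).eventually_lt_const (by linarith)
    rcases lt_trichotomy x.re 0 with hre | hre | hre
    · refine ⟨K1, fun _ => 0, isOpen_K1, convex_K1, concaveOn_const 0 convex_K1, ?_⟩
      filter_upwards [hnear, him, (Complex.continuous_re.tendsto x).eventually_lt_const hre]
        with y hy1 hy2 hy3 a
      rw [base_iff]
      constructor
      · rintro (⟨hW, -, rfl⟩ | ⟨j, hj⟩)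
        · exact ⟨⟨hW, hy3⟩, rfl⟩
        · obtain rfl : j = k := by
            by_contra hjk
            rcases hj with ⟨hj, -⟩ | ⟨hj, -⟩
            · exact (hy1 j hjk).1 hj
            · exact (hy1 j hjk).2 hj
          rcases hj with ⟨hj, rfl⟩ | ⟨hj, rfl⟩
          · refine ⟨⟨P_W hj, hy3⟩, ?_⟩
            rw [min_of_f_pos (f_pos_left (by linarith) hj.2.2.1)]
          · exfalso; linarith [hj.1]
      · rintro ⟨⟨hW, -⟩, rfl⟩
        exact Or.inl ⟨hW, Or.inl hy3, rfl⟩
    · -- `re x = 0`
      have hcor0 := hc k 0
      have hcor1 := hc k 1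
      have hxim : 1022 * e k < x.im ∧ (x.im < 1026 * e k ∨ 1026 * e k < x.im) := by
        refine ⟨lt_of_le_of_ne h3 ?_, ?_⟩
        · intro heq
          apply hcor0
          refine ⟨?_, ?_, ?_, ?_⟩ <;> simp only [bx, bz, Fin.isValue, Matrix.cons_val_zero] <;>
            linarith
        · apply lt_or_gt_of_ne
          intro heq
          apply hcor1
          refine ⟨?_, ?_, ?_, ?_⟩ <;> simp only [bx, bz, Fin.isValue, Matrix.cons_val_one,
            Matrix.cons_val_zero] <;> linarith
      have hnre : ∀ᶠ y : ℂ in 𝓝 x, y.re < 124 * e k :=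
        (Complex.continuous_re.tendsto x).eventually_lt_const (by linarith)
      have hnre2 : ∀ᶠ y : ℂ in 𝓝 x, -(2 * e k) < y.re :=
        (Complex.continuous_re.tendsto x).eventually_const_lt (by linarith)
      rcases hxim.2 with hx2 | hx2
      · refine ⟨P k, _, isOpen_P k, convex_P k, concave_min k (convex_P k), ?_⟩
        filter_upwards [hnear, hnre, hnre2,
          (Complex.continuous_im.tendsto x).eventually_const_lt hxim.1,
          (Complex.continuous_im.tendsto x).eventually_lt_const hx2] with y hy1 hy2 hy3 hy4 hy5 a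
        have hyP : y ∈ P k := ⟨hy3, by linarith, hy4, hy5⟩
        rw [base_iff]
        constructor
        · rintro (⟨hW, hM, rfl⟩ | ⟨j, hj⟩)
          · refine ⟨hyP, ?_⟩
            have : y.re < 0 := by
              rcases hM with h | h
              · exact h
              · exfalso; linarith
            rw [min_of_f_pos (f_pos_left (by linarith) hy4)]
          · obtain rfl : j = k := by
              by_contra hjk
              rcases hj with ⟨hj, -⟩ | ⟨hj, -⟩
              · exact (hy1 j hjk).1 hj
              · exact (hy1 j hjk).2 hj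
            rcases hj with ⟨hj, rfl⟩ | ⟨hj, rfl⟩
            · exact ⟨hj, rfl⟩
            · exfalso; linarith [hj.1]
        · rintro ⟨-, rfl⟩
          exact Or.inr ⟨k, Or.inl ⟨hyP, rfl⟩⟩
      · refine ⟨K1, fun _ => 0, isOpen_K1, convex_K1, concaveOn_const 0 convex_K1, ?_⟩
        filter_upwards [hnear, him, hnre,
          (Complex.continuous_im.tendsto x).eventually_const_lt hx2] with y hy1 hy2 hy3 hy4 a
        rw [base_iff]
        constructor
        · rintro (⟨hW, hM, rfl⟩ | ⟨j, hj⟩)
          · refine ⟨⟨hW, ?_⟩, rfl⟩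
            rcases hM with h | h
            · exact h
            · exfalso; linarith
          · obtain rfl : j = k := by
              by_contra hjk
              rcases hj with ⟨hj, -⟩ | ⟨hj, -⟩
              · exact (hy1 j hjk).1 hj
              · exact (hy1 j hjk).2 hj
            exfalso
            rcases hj with ⟨hj, rfl⟩ | ⟨hj, rfl⟩
            · linarith [hj.2.2.2]
            · linarith [hj.1]
        · rintro ⟨⟨hW, hre'⟩, rfl⟩
          exact Or.inl ⟨hW, Or.inl hre', rfl⟩
    · -- `re x > 0`
      have hpre : ∀ᶠ y : ℂ in 𝓝 x, 0 < y.re :=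
        (Complex.continuous_re.tendsto x).eventually_const_lt hre
      have hcor := hc k 2
      have hcases : x.re < 124 * e k ∨ 124 * e k < x.re ∨
          (x.re = 124 * e k ∧ (x.im < 1026 * e k ∨ 1026 * e k < x.im)) := by
        rcases lt_trichotomy x.re (124 * e k) with h | h | h
        · exact Or.inl h
        · refine Or.inr (Or.inr ⟨h, ?_⟩)
          apply lt_or_gt_of_ne
          intro heq
          apply hcor
          refine ⟨?_, ?_, ?_, ?_⟩ <;> simp only [bx, bz, Fin.isValue, Matrix.cons_val] <;>
            linarith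
        · exact Or.inr (Or.inl h)
      -- reduce to a statement on `P k` and `Q k`
      have hred : ∀ᶠ y in 𝓝 x, ∀ a, Base y a ↔
          (y ∈ P k ∧ a = min 0 (c k * f k y)) ∨ (y ∈ Q k ∧ a = c k * f k y) := by
        filter_upwards [hnear, him, hpre] with y hy1 hy2 hy3 a
        rw [base_iff]
        constructor
        · rintro (⟨hW, hM, rfl⟩ | ⟨j, hj⟩)
          · exfalso
            rcases hM with h | h <;> linarith
          · obtain rfl : j = k := by
              by_contra hjk
              rcases hj with ⟨hj, -⟩ | ⟨hj, -⟩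
              · exact (hy1 j hjk).1 hj
              · exact (hy1 j hjk).2 hj
            exact hj
        · intro h
          exact Or.inr ⟨k, h⟩
      have caseP : (∀ᶠ y : ℂ in 𝓝 x, y ∈ Q k → y ∈ P k ∧ f k y < 0) → LocConv Base x := by
        intro hev
        refine ⟨P k, _, isOpen_P k, convex_P k, concave_min k (convex_P k), ?_⟩
        filter_upwards [hred, hev] with y hy1 hy2 a
        rw [hy1]
        constructor
        · rintro (h | ⟨h, rfl⟩)
          · exact h
          · exact ⟨(hy2 h).1, (min_of_f_neg (hy2 h).2).symm⟩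
        · intro h
          exact Or.inl h
      have caseQ : (∀ᶠ y : ℂ in 𝓝 x, y ∈ P k → y ∈ Q k ∧ f k y < 0) → LocConv Base x := by
        intro hev
        refine ⟨Q k, _, isOpen_Q k, convex_Q k, concave_cf k (convex_Q k), ?_⟩
        filter_upwards [hred, hev] with y hy1 hy2 a
        rw [hy1]
        constructor
        · rintro (⟨h, rfl⟩ | h)
          · exact ⟨(hy2 h).1, min_of_f_neg (hy2 h).2⟩
          · exact h
        · intro h
          exact Or.inr h
      rcases hcases with h | h | ⟨h, h' | h'⟩
      · apply caseP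
        filter_upwards [(Complex.continuous_re.tendsto x).eventually_lt_const h] with y hy hQ
        exfalso; linarith [hQ.1]
      · apply caseQ
        filter_upwards [(Complex.continuous_re.tendsto x).eventually_const_lt h] with y hy hP
        obtain ⟨p1, p2, p3, p4⟩ := hP
        exact ⟨⟨hy, p2, p3, by linarith⟩, f_neg_right (by linarith) (by linarith)⟩
      · apply caseP
        filter_upwards [(Complex.continuous_im.tendsto x).eventually_lt_const h'] with y hy hQ
        obtain ⟨p1, p2, p3, p4⟩ := hQ
        exact ⟨⟨by linarith, p2, p3, hy⟩, f_neg_right (by linarith) (by linarith)⟩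
      · apply caseQ
        filter_upwards [(Complex.continuous_im.tendsto x).eventually_const_lt h'] with y hy hP
        exfalso; linarith [hP.2.2.2]
  · push Not at hex
    have hnear : ∀ᶠ y in 𝓝 x, ∀ j, True → y ∉ P j ∧ y ∉ Q j := base_near hx _ fun j _ => hex j
    have hred : ∀ᶠ y in 𝓝 x, ∀ a, Base y a ↔ (y ∈ W ∧ y ∈ M ∧ a = 0) := by
      filter_upwards [hnear] with y hy a
      rw [base_iff]
      constructor
      · rintro (h | ⟨j, ⟨hj, -⟩ | ⟨hj, -⟩⟩)
        · exact h
        · exact absurd hj (hy j trivial).1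
        · exact absurd hj (hy j trivial).2
      · exact Or.inl
    have c1 : (∀ᶠ y : ℂ in 𝓝 x, y ∈ M ↔ y.re < 0) → LocConv Base x := by
      intro hev
      refine ⟨K1, fun _ => 0, isOpen_K1, convex_K1, concaveOn_const 0 convex_K1, ?_⟩
      filter_upwards [hred, hev] with y hy1 hy2 a
      rw [hy1, hy2, ← and_assoc]
      rfl
    have c2 : (∀ᶠ y : ℂ in 𝓝 x, y ∈ M ↔ y.im < 0) → LocConv Base x := by
      intro hev
      refine ⟨K2, fun _ => 0, isOpen_K2, convex_K2, concaveOn_const 0 convex_K2, ?_⟩
      filter_upwards [hred, hev] with y hy1 hy2 a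
      rw [hy1, hy2, ← and_assoc]
      rfl
    by_cases a1 : 0 < x.im
    · apply c1
      filter_upwards [(Complex.continuous_im.tendsto x).eventually_const_lt a1] with y hy
      exact ⟨fun h => h.resolve_right (not_lt.2 hy.le), Or.inl⟩
    by_cases a2 : 0 < x.re
    · apply c2
      filter_upwards [(Complex.continuous_re.tendsto x).eventually_const_lt a2] with y hy
      exact ⟨fun h => h.resolve_left (not_lt.2 hy.le), Or.inr⟩
    by_cases a3 : x.im < 0
    · apply c2
      filter_upwards [(Complex.continuous_im.tendsto x).eventually_lt_const a3] with y hy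
      exact ⟨fun _ => hy, Or.inr⟩
    · apply c1
      have a4 : x.re < 0 := by
        by_contra a5
        apply hx
        apply Complex.ext
        · simp only [Complex.zero_re]; linarith
        · simp only [Complex.zero_im]; linarith
      filter_upwards [(Complex.continuous_re.tendsto x).eventually_lt_const a4] with y hy
      exact ⟨fun _ => hy, Or.inl⟩

end Pool.Agent.KS7_39.LS
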